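import Pool.Agent.U108.SW.A
import Pool.Agent.U108.LV.A

set_option autoImplicit false

/-! Sums over the points of a digit box of a function of `F(u) + c`, for almost all `c`. -/

namespace Pool.Agent.U108.SW
open Finset
open Pool.Agent.H373R2.T7 (exI)
open Pool.Agent.U108.DP (Bo val)
open Pool.Agent.U108.LV (ev ev_norm)
open Pool.Agent.TH823.MRS (ExpoSmall)

lemma ev_split (h : ℕ → ℂ) (m : ℤ) : ev h m = exI h m + exI h (-m) := by
  unfold ev exI
  rcases lt_trichotomy m 0 with hm | hm | hm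
  · rw [if_neg hm.ne, if_neg (by omega), if_pos (by omega), zero_add]
    congr 1
    omega
  · rw [if_pos hm, if_neg (by omega), if_neg (by omega), add_zero]
  · rw [if_neg hm.ne', if_pos (by omega), if_neg (by omega), add_zero]
    congr 1
    omega

lemma val_neg {J : Type} (F : MvPolynomial J ℤ) (n : J → ℕ) : val (-F) n = - val F n := by
  unfold Pool.Agent.U108.DP.val
  rw [map_neg]

lemma fam_neg {b d B : ℕ} {J : Type} [Fintype J] [DecidableEq J] {k : ℕ} {D : J → ℕ → Finset ℕ}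
    {F : MvPolynomial J ℤ} {A : Finset (J → ℕ)} (hA : Fam b d B k D F A) : Fam b d B k D (-F) A := by
  refine ⟨hA.digits, ?_, ?_, hA.part, ?_⟩
  · rw [MvPolynomial.totalDegree_neg]
    exact hA.degree
  · obtain ⟨m, h1, h2, h3⟩ := hA.top
    refine ⟨m, h1, ?_, ?_⟩
    · rw [MvPolynomial.coeff_neg]
      exact neg_ne_zero.2 h2
    · rw [MvPolynomial.coeff_neg, abs_neg]
      exact h3
  · intro n hn
    rw [val_neg, abs_neg]
    exact hA.values n hn

lemma fam_B {b d B : ℕ} {J : Type} [Fintype J] [DecidableEq J] {k : ℕ} {D : J → ℕ → Finset ℕ}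
    {F : MvPolynomial J ℤ} {A : Finset (J → ℕ)} (hA : Fam b d B k D F A) : 1 ≤ B := by
  obtain ⟨m, _, h2, h3⟩ := hA.top
  have := Int.one_le_abs h2
  omega

open Classical in
theorem corr (h : ℕ → ℂ) (hh : ∀ n, ‖h n‖ ≤ 1) (hE : ExpoSmall h) (b r B : ℕ) (hb : 2 ≤ b) (δ : ℝ) (hδ : 0 < δ) :
    ∃ k₀ X₀ : ℕ, ∀ X k : ℕ, X₀ ≤ X → k₀ ≤ k → b ^ ((r + 2) * k) ≤ X →
      ∀ (J : Type) [Fintype J] [DecidableEq J] (D : J → ℕ → Finset ℕ) (F : MvPolynomial J ℤ) (A : Finset (J → ℕ)),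
      Fam b (r + 2) B k D F A → ∀ g : ℕ → ℂ, (∀ n, ‖g n‖ ≤ 1) →
      ((A.filter (fun u => 2 * δ * X < ‖∑ c ∈ Icc 1 X, g c * ev h (val F u + c)‖)).card : ℝ) ≤ 2 * δ * A.card := by
  obtain ⟨k₀, X₀, h1⟩ := one h hh hE b r B hb δ hδ
  refine ⟨k₀, X₀, fun X k hX hk hbX J _ _ D F A hA g hg => ?_⟩
  have hB := fam_B hA
  have h2 := h1 X k hX hk hbX J D F A hA 1 0 le_rfl (by positivity) g hg
    (fun u => δ * X < ‖∑ c ∈ Icc 1 X, g c * exI h (val F u + c)‖) (by
      intro u _ hu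
      refine ⟨X, by nlinarith, lt_of_lt_of_eq hu ?_⟩
      congr 1
      refine sum_congr rfl fun c _ => ?_
      congr 2
      push_cast
      ring)
  have h3 := h1 X k hX hk hbX J D (-F) A (fam_neg hA) 1 (-((X : ℤ) + 1)) le_rfl (by
      have : (0 : ℤ) ≤ (B : ℤ) * X := by positivity
      have : (0 : ℤ) ≤ X := by positivity
      linarith) (fun i => g (X + 1 - i)) (fun i => hg _)
    (fun u => δ * X < ‖∑ c ∈ Icc 1 X, g c * exI h (-(val F u + c))‖) (by
      intro u _ hu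
      refine ⟨X, by nlinarith, lt_of_lt_of_eq hu ?_⟩
      congr 1
      apply sum_nbij' (fun c => X + 1 - c) (fun c => X + 1 - c)
      · intro c hc
        rw [mem_Icc] at hc ⊢
        omega
      · intro c hc
        rw [mem_Icc] at hc ⊢
        omega
      · intro c hc
        rw [mem_Icc] at hc
        omega
      · intro c hc
        rw [mem_Icc] at hc
        omega
      · intro c hc
        rw [mem_Icc] at hc
        have e1 : X + 1 - (X + 1 - c) = c := by omega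
        have e2 : -(val F u + (c : ℤ)) = ((1 : ℕ) : ℤ) * ((X + 1 - c : ℕ) : ℤ) + -((X : ℤ) + 1) + val (-F) u := by
          rw [val_neg, Nat.cast_sub (by omega)]
          push_cast
          ring
        rw [e1, e2])
  have hsub : A.filter (fun u => 2 * δ * X < ‖∑ c ∈ Icc 1 X, g c * ev h (val F u + c)‖) ⊆
      A.filter (fun u => δ * X < ‖∑ c ∈ Icc 1 X, g c * exI h (val F u + c)‖) ∪
      A.filter (fun u => δ * X < ‖∑ c ∈ Icc 1 X, g c * exI h (-(val F u + c))‖) := by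
    intro u hu
    rw [mem_filter] at hu
    rw [mem_union, mem_filter, mem_filter]
    by_contra hcon
    push Not at hcon
    have h4 := hcon.1 hu.1
    have h5 := hcon.2 hu.1
    have e1 : ∑ c ∈ Icc 1 X, g c * ev h (val F u + c) = ∑ c ∈ Icc 1 X, g c * exI h (val F u + c) +
        ∑ c ∈ Icc 1 X, g c * exI h (-(val F u + c)) := by
      rw [← sum_add_distrib]
      refine sum_congr rfl fun c _ => ?_
      rw [ev_split, mul_add]
    have h6 := norm_add_le (∑ c ∈ Icc 1 X, g c * exI h (val F u + c)) (∑ c ∈ Icc 1 X, g c * exI h (-(val F u + c)))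
    rw [← e1] at h6
    linarith [hu.2]
  have h4 : ((A.filter (fun u => 2 * δ * X < ‖∑ c ∈ Icc 1 X, g c * ev h (val F u + c)‖)).card : ℝ) ≤
      ((A.filter (fun u => δ * X < ‖∑ c ∈ Icc 1 X, g c * exI h (val F u + c)‖)).card : ℝ) +
      ((A.filter (fun u => δ * X < ‖∑ c ∈ Icc 1 X, g c * exI h (-(val F u + c))‖)).card : ℝ) := by
    exact_mod_cast (card_le_card hsub).trans (card_union_le _ _)
  linarith

open Classical in
theorem arg (h : ℕ → ℂ) (hh : ∀ n, ‖h n‖ ≤ 1) (hE : ExpoSmall h) (b r B : ℕ) (hb : 2 ≤ b) (ε : ℝ) (hε : 0 < ε) :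
    ∃ k₀ X₀ : ℕ, ∀ X k : ℕ, X₀ ≤ X → k₀ ≤ k → b ^ ((r + 2) * k) ≤ X →
      ∀ (J : Type) [Fintype J] [DecidableEq J] (D : J → ℕ → Finset ℕ) (F : MvPolynomial J ℤ) (A : Finset (J → ℕ)),
      Fam b (r + 2) B k D F A → ∀ G : (J → ℕ) → ℂ, (∀ u, ‖G u‖ ≤ 1) →
      (((Icc 1 X).filter (fun c : ℕ => ε * A.card < ‖∑ u ∈ A, G u * ev h (val F u + c)‖)).card : ℝ) ≤ ε * X := by
  obtain ⟨k₀, X₀, h1⟩ := corr h hh hE b r B hb (ε ^ 3 / 4) (by positivity)
  refine ⟨k₀, X₀, fun X k hX hk hbX J _ _ D F A hA G hG => ?_⟩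
  obtain ⟨a, ha⟩ : ∃ a : ℝ, a = A.card := ⟨_, rfl⟩
  have ha0 : 0 ≤ a := by rw [ha]; positivity
  rw [← ha]
  rcases ha0.eq_or_lt with ha1 | ha1
  · have hA0 : A = ∅ := by
      rw [← card_eq_zero]
      rw [ha] at ha1
      exact_mod_cast ha1.symm
    rw [filter_eq_empty_iff.2]
    · simp only [card_empty, Nat.cast_zero]
      positivity
    · intro c _
      rw [hA0, sum_empty, norm_zero, ← ha1]
      simp
  obtain ⟨e, he⟩ : ∃ e : (J → ℕ) → ℕ → ℂ, e = fun (u : J → ℕ) (c : ℕ) => ev h (val F u + (c : ℤ)) := ⟨_, rfl⟩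
  have hen : ∀ u c, ‖e u c‖ ≤ 1 := fun u c => by rw [he]; exact ev_norm h hh _
  obtain ⟨S, hS⟩ : ∃ S : ℕ → ℂ, S = fun c => ∑ u ∈ A, G u * e u c := ⟨_, rfl⟩
  have hSe : ∀ c : ℕ, ∑ u ∈ A, G u * ev h (val F u + c) = S c := fun c => by rw [hS, he]
  simp only [hSe]
  have hT : ∀ u' ∈ A, ∑ u ∈ A, ‖∑ c ∈ Icc 1 X, (starRingEnd ℂ) (e u' c) * e u c‖ ≤ ε ^ 3 * a * X := by
    intro u' _
    have h2 := h1 X k hX hk hbX J D F A hA (fun c => (starRingEnd ℂ) (e u' c)) (fun c => by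
      rw [RCLike.norm_conj]
      exact hen u' c)
    obtain ⟨Bad, hBad⟩ : ∃ Bad : Finset (J → ℕ), Bad = A.filter (fun u => 2 * (ε ^ 3 / 4) * X <
      ‖∑ c ∈ Icc 1 X, (starRingEnd ℂ) (e u' c) * ev h (val F u + c)‖) := ⟨_, rfl⟩
    rw [← hBad, ← ha] at h2
    have h3 : ∀ u ∈ A, ‖∑ c ∈ Icc 1 X, (starRingEnd ℂ) (e u' c) * e u c‖ ≤
        (if u ∈ Bad then (X : ℝ) else 0) + 2 * (ε ^ 3 / 4) * X := by
      intro u hu
      have hX0 : (0 : ℝ) ≤ X := Nat.cast_nonneg _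
      by_cases hb1 : u ∈ Bad
      · rw [if_pos hb1]
        have h4 : ‖∑ c ∈ Icc 1 X, (starRingEnd ℂ) (e u' c) * e u c‖ ≤ X := by
          refine (norm_sum_le _ _).trans ?_
          calc ∑ c ∈ Icc 1 X, ‖(starRingEnd ℂ) (e u' c) * e u c‖ ≤ ∑ _c ∈ Icc 1 X, (1 : ℝ) := by
                refine sum_le_sum fun c _ => ?_
                rw [norm_mul, RCLike.norm_conj]
                exact mul_le_one₀ (hen u' c) (norm_nonneg _) (hen u c)
            _ = X := by rw [sum_const, Nat.card_Icc, nsmul_eq_mul, mul_one]; simp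
        have h5 : 0 ≤ 2 * (ε ^ 3 / 4) * X := by positivity
        linarith
      · rw [if_neg hb1, zero_add]
        rw [hBad, mem_filter, not_and] at hb1
        have h4 := hb1 hu
        rw [not_lt] at h4
        rw [he] at h4 ⊢
        exact h4
    refine (sum_le_sum h3).trans ?_
    rw [sum_add_distrib, sum_const, nsmul_eq_mul, ← ha]
    have h6 : ∑ u ∈ A, (if u ∈ Bad then (X : ℝ) else 0) ≤ Bad.card * X := by
      rw [← sum_filter, sum_const, nsmul_eq_mul]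
      apply mul_le_mul_of_nonneg_right _ (Nat.cast_nonneg _)
      apply Nat.cast_le.2
      apply card_le_card
      intro u hu
      exact (mem_filter.1 hu).2
    have h7 : (Bad.card : ℝ) * X ≤ (2 * (ε ^ 3 / 4) * a) * X := mul_le_mul_of_nonneg_right h2 (Nat.cast_nonneg _)
    nlinarith [h6, h7]
  have hM : ∑ c ∈ Icc 1 X, ‖S c‖ ^ 2 ≤ ε ^ 3 * a ^ 2 * X := by
    have e1 : ((∑ c ∈ Icc 1 X, ‖S c‖ ^ 2 : ℝ) : ℂ) = ∑ u' ∈ A, (starRingEnd ℂ) (G u') *
        ∑ u ∈ A, G u * ∑ c ∈ Icc 1 X, (starRingEnd ℂ) (e u' c) * e u c := by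
      have e2 : ∀ c, ((‖S c‖ ^ 2 : ℝ) : ℂ) = ∑ u' ∈ A, ∑ u ∈ A, (starRingEnd ℂ) (G u') * (G u * ((starRingEnd ℂ) (e u' c) * e u c)) := by
        intro c
        rw [Complex.ofReal_pow, ← Complex.conj_mul', hS]
        simp only
        rw [map_sum, sum_mul_sum]
        refine sum_congr rfl fun u' _ => sum_congr rfl fun u _ => ?_
        rw [map_mul]
        ring
      rw [Complex.ofReal_sum, sum_congr rfl fun c _ => e2 c, sum_comm]
      refine sum_congr rfl fun u' _ => ?_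
      rw [sum_comm, mul_sum]
      refine sum_congr rfl fun u _ => ?_
      rw [mul_sum, mul_sum]
    have e3 : ∑ c ∈ Icc 1 X, ‖S c‖ ^ 2 = ‖((∑ c ∈ Icc 1 X, ‖S c‖ ^ 2 : ℝ) : ℂ)‖ := by
      rw [Complex.norm_real, Real.norm_of_nonneg]
      exact sum_nonneg fun _ _ => by positivity
    rw [e3, e1]
    refine (norm_sum_le _ _).trans ?_
    calc ∑ u' ∈ A, ‖(starRingEnd ℂ) (G u') * ∑ u ∈ A, G u * ∑ c ∈ Icc 1 X, (starRingEnd ℂ) (e u' c) * e u c‖
        ≤ ∑ _u' ∈ A, ε ^ 3 * a * X := by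
          refine sum_le_sum fun u' hu' => ?_
          rw [norm_mul, RCLike.norm_conj]
          have h5 : ‖∑ u ∈ A, G u * ∑ c ∈ Icc 1 X, (starRingEnd ℂ) (e u' c) * e u c‖ ≤ ε ^ 3 * a * X := by
            refine (norm_sum_le _ _).trans (le_trans (sum_le_sum fun u _ => ?_) (hT u' hu'))
            rw [norm_mul]
            exact mul_le_of_le_one_left (norm_nonneg _) (hG u)
          exact (mul_le_of_le_one_left (norm_nonneg _) (hG u')).trans h5
      _ = ε ^ 3 * a ^ 2 * X := by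
          rw [sum_const, nsmul_eq_mul, ← ha]
          ring
  obtain ⟨E, hE'⟩ : ∃ E : Finset ℕ, E = (Icc 1 X).filter (fun c : ℕ => ε * a < ‖S c‖) := ⟨_, rfl⟩
  rw [← hE']
  have h5 : (E.card : ℝ) * (ε * a) ^ 2 ≤ ε ^ 3 * a ^ 2 * X := by
    refine le_trans ?_ hM
    rw [← nsmul_eq_mul, ← sum_const]
    refine le_trans (sum_le_sum (f := fun _ => (ε * a) ^ 2) (g := fun c => ‖S c‖ ^ 2) fun c hc => ?_)
      (sum_le_sum_of_subset_of_nonneg (by rw [hE']; exact filter_subset _ _) fun _ _ _ => by positivity)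
    rw [hE', mem_filter] at hc
    exact pow_le_pow_left₀ (by positivity) hc.2.le 2
  have h6 : (E.card : ℝ) * (ε * a) ^ 2 = (E.card : ℝ) * (ε ^ 2 * a ^ 2) := by ring
  have h7 : ε ^ 3 * a ^ 2 * X = (ε * X) * (ε ^ 2 * a ^ 2) := by ring
  rw [h6, h7] at h5
  exact le_of_mul_le_mul_right h5 (by positivity)

end Pool.Agent.U108.SW
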