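import Pool.Agent.U108.SW.D
import Pool.Agent.U108.LV.B

set_option autoImplicit false

/-! Sums of a function of `F(n) + c` over the integers `n < y` of a residue class with restricted digits, for almost all `c`. -/

namespace Pool.Agent.U108.SW
open Finset
open Pool.Agent.TH872.GQ (S)
open Pool.Agent.U108.DP (Bo val)
open Pool.Agent.U108.LV (ev ev_norm SU card_pos)
open Pool.Agent.U108.PV (mem_S card_block mv mv_eval mv_degree mv_coeff)
open Pool.Agent.TH823.MRS (ExpoSmall)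
open Polynomial (X)
open scoped Polynomial

lemma sum_unit (b k : ℕ) (D : ℕ → Finset ℕ) (f : ℕ → ℂ) :
    ∑ u ∈ Bo b k (fun _ : Unit => D), f (u ()) = ∑ n ∈ S b D k, f n := by
  apply sum_nbij' (fun u => u ()) (fun n _ => n)
  · intro u hu
    exact Fintype.mem_piFinset.1 hu ()
  · intro n hn
    exact Fintype.mem_piFinset.2 fun _ => hn
  · intro u _
    rfl
  · intro n _
    rfl
  · intro u _
    rfl

lemma card_unit (b k : ℕ) (D : ℕ → Finset ℕ) : (Bo b k (fun _ : Unit => D)).card = (S b D k).card := by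
  unfold Pool.Agent.U108.DP.Bo
  rw [Fintype.card_piFinset]
  simp

lemma fam_unit (b d B k : ℕ) (D : ℕ → Finset ℕ) (hD : ∀ i < k, D i ⊆ range b ∧ 2 ≤ (D i).card) (F : ℤ[X])
    (hF : F.natDegree = d) (hF0 : F.leadingCoeff ≠ 0) (hB : |F.leadingCoeff| ≤ B)
    (hv : ∀ n ∈ S b D k, |F.eval (n : ℤ)| ≤ B * (b : ℤ) ^ (d * k)) :
    Fam b d B k (fun _ : Unit => D) (mv F) (Bo b k (fun _ : Unit => D)) := by
  refine ⟨fun _ => hD, by rw [← hF]; exact mv_degree F, ⟨Finsupp.single () d, by simp, ?_, ?_⟩, ⟨Subset.refl _, ?_⟩, ?_⟩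
  · rw [← hF, mv_coeff]; exact hF0
  · rw [← hF, mv_coeff]; exact hB
  · have := Int.one_le_abs hF0
    have h1 : 1 ≤ B := by omega
    exact Nat.le_mul_of_pos_left _ h1
  · intro u hu
    have h1 : val (mv F) u = F.eval ((u () : ℕ) : ℤ) := by
      unfold Pool.Agent.U108.DP.val
      rw [mv_eval]
    rw [h1]
    exact hv _ (Fintype.mem_piFinset.1 hu ())

open Classical in
theorem seg (h : ℕ → ℂ) (hh : ∀ n, ‖h n‖ ≤ 1) (hE : ExpoSmall h) (b r B L : ℕ) (hb : 2 ≤ b) (ε : ℝ) (hε : 0 < ε) :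
    ∃ k₀ X₀ : ℕ, ∀ X k : ℕ, X₀ ≤ X → k₀ ≤ k → b ^ ((r + 2) * k) ≤ X →
      ∀ D : ℕ → Finset ℕ, (∀ i < k, D i ⊆ range b ∧ 2 ≤ (D i).card) → ∀ F : ℤ[X], F.natDegree = r + 2 → |F.leadingCoeff| ≤ B →
      (∀ n ∈ S b D k, |F.eval (n : ℤ)| ≤ B * (b : ℤ) ^ ((r + 2) * k)) → ∀ G : Fin L → ℕ → ℂ, (∀ l n, ‖G l n‖ ≤ 1) →
      ∃ E ⊆ Icc 1 X, (E.card : ℝ) ≤ ε * X ∧ ∀ c ∈ Icc 1 X, c ∉ E → ∀ (l : Fin L) (y q a : ℕ), 1 ≤ q → q ≤ B →
        ‖SU b k D (G l) (ev h) F c y q a‖ ≤ ε * (S b D k).card := by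
  obtain ⟨m, hm⟩ : ∃ m : ℕ, 2 / ε ≤ 2 ^ m := by
    obtain ⟨m, hm⟩ := exists_nat_ge (2 / ε)
    refine ⟨m, hm.trans ?_⟩
    exact_mod_cast (Nat.lt_two_pow_self).le
  obtain ⟨M, hM⟩ : ∃ M : ℕ, M = (b ^ m + 1) * ((B + 1) * (B + 1)) * L + 2 := ⟨_, rfl⟩
  have hM2 : (2 : ℝ) ≤ M := by exact_mod_cast (by omega : 2 ≤ M)
  have hM0 : (0 : ℝ) < M := by linarith
  obtain ⟨δ, hδ⟩ : ∃ δ : ℝ, δ = ε / M := ⟨_, rfl⟩
  have hδ0 : 0 < δ := by rw [hδ]; positivity
  obtain ⟨k₀, X₀, h1⟩ := arg h hh hE b r B hb δ hδ0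
  refine ⟨k₀ + m, X₀, fun N k hN hk hbN D hD F hF hlc hv G hG => ?_⟩
  have hF0 : F.leadingCoeff ≠ 0 := by
    rw [Ne, Polynomial.leadingCoeff_eq_zero]
    rintro rfl
    simp at hF
  have hfam := fam_unit b (r + 2) B k D hD F hF hF0 hlc hv
  obtain ⟨s, hs⟩ : ∃ s : ℝ, s = (S b D k).card := ⟨_, rfl⟩
  have hs1 : 0 < s := by rw [hs]; exact_mod_cast card_pos b k (by omega) D hD
  obtain ⟨j, hj⟩ : ∃ j, j = k - m := ⟨_, rfl⟩
  have hjk : j + m = k := by omega
  have hbj : 0 < b ^ j := by positivity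
  obtain ⟨w, hw⟩ : ∃ w : ((ℕ × ℕ × ℕ) × Fin L) → ℕ → ℂ, w = fun t n => if n / b ^ j < t.1.1 ∧ n % t.1.2.1 = t.1.2.2 then G t.2 n else 0 := ⟨_, rfl⟩
  have hw1 : ∀ t n, ‖w t n‖ ≤ 1 := by
    intro t n
    rw [hw]
    simp only
    split_ifs
    · exact hG _ _
    · simp
  obtain ⟨Bd, hBd⟩ : ∃ Bd : ((ℕ × ℕ × ℕ) × Fin L) → Finset ℕ, Bd = fun t => (Icc 1 N).filter (fun c : ℕ =>
      δ * s < ‖∑ n ∈ S b D k, w t n * ev h (F.eval (n : ℤ) + (c : ℤ))‖) := ⟨_, rfl⟩
  have hBdc : ∀ t, ((Bd t).card : ℝ) ≤ δ * N := by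
    intro t
    have h2 := h1 N k hN (by omega) hbN Unit (fun _ => D) (mv F) (Bo b k (fun _ : Unit => D)) hfam (fun u => w t (u ()))
      (fun u => hw1 t _)
    have h3 : ∀ c : ℕ, ∑ u ∈ Bo b k (fun _ : Unit => D), w t (u ()) * ev h (val (mv F) u + (c : ℤ)) =
        ∑ n ∈ S b D k, w t n * ev h (F.eval (n : ℤ) + (c : ℤ)) := by
      intro c
      rw [← sum_unit b k D (fun n => w t n * ev h (F.eval (n : ℤ) + (c : ℤ)))]
      refine sum_congr rfl fun u _ => ?_
      have h4 : val (mv F) u = F.eval ((u () : ℕ) : ℤ) := by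
        unfold Pool.Agent.U108.DP.val
        rw [mv_eval]
      rw [h4]
    simp only [h3] at h2
    rw [card_unit, ← hs] at h2
    rw [hBd]
    exact h2
  obtain ⟨I, hI⟩ : ∃ I : Finset ((ℕ × ℕ × ℕ) × Fin L), I = (range (b ^ m + 1) ×ˢ (range (B + 1) ×ˢ range (B + 1))) ×ˢ univ := ⟨_, rfl⟩
  have hIc : (I.card : ℝ) ≤ M := by
    rw [hI, card_product, card_product, card_product, card_range, card_range, card_univ, Fintype.card_fin]
    exact_mod_cast (by omega : (b ^ m + 1) * ((B + 1) * (B + 1)) * L ≤ M)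
  have hMδ : (M : ℝ) * δ = ε := by rw [hδ]; field_simp
  have hblock : ∀ g, (((S b D k).filter (fun n => n / b ^ j = g)).card : ℝ) ≤ s / 2 ^ m := by
    intro g
    have h4 := card_block b j m (by omega) D (by rw [hjk]; exact hD) g
    rw [hjk, ← hs] at h4
    exact h4
  refine ⟨I.biUnion Bd, ?_, ?_, ?_⟩
  · intro c hc
    rw [mem_biUnion] at hc
    obtain ⟨t, _, hc⟩ := hc
    rw [hBd] at hc
    exact (mem_filter.1 hc).1
  · have h2 : ((I.biUnion Bd).card : ℝ) ≤ ∑ t ∈ I, ((Bd t).card : ℝ) := by exact_mod_cast card_biUnion_le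
    refine h2.trans ((sum_le_sum fun t _ => hBdc t).trans ?_)
    rw [sum_const, nsmul_eq_mul]
    have h3 : (0 : ℝ) ≤ δ * N := by positivity
    calc (I.card : ℝ) * (δ * N) ≤ M * (δ * N) := mul_le_mul_of_nonneg_right hIc h3
      _ = ε * N := by rw [← mul_assoc, hMδ]
  · intro c hc1 hc2 l y q a hq1 hq2
    rw [← hs]
    rcases Nat.lt_or_ge a q with ha | ha
    swap
    · have h0 : SU b k D (G l) (ev h) F c y q a = 0 := by
        unfold Pool.Agent.U108.LV.SU
        have : (S b D k).filter (fun n => n < y ∧ n % q = a) = ∅ := by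
          apply filter_eq_empty_iff.2
          rintro n _ ⟨_, h2⟩
          have := Nat.mod_lt n hq1
          omega
        rw [this, sum_empty]
      rw [h0, norm_zero]
      positivity
    obtain ⟨g, hg⟩ : ∃ g, g = min (y / b ^ j) (b ^ m) := ⟨_, rfl⟩
    have hgI : ((g, q, a), l) ∈ I := by
      rw [hI, mem_product, mem_product, mem_product, mem_range, mem_range, mem_range]
      refine ⟨⟨?_, ?_, ?_⟩, mem_univ _⟩
      · simp only; rw [hg]; omega
      · simp only; omega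
      · simp only; omega
    have hg2 : ‖∑ n ∈ S b D k, (if n / b ^ j < g ∧ n % q = a then G l n else 0) * ev h (F.eval (n : ℤ) + (c : ℤ))‖ ≤ δ * s := by
      by_contra hcon
      rw [not_le] at hcon
      apply hc2
      rw [mem_biUnion]
      refine ⟨((g, q, a), l), hgI, ?_⟩
      rw [hBd]
      simp only
      rw [mem_filter]
      refine ⟨hc1, ?_⟩
      rw [hw]
      exact hcon
    have hmem : ∀ n ∈ S b D k, (n / b ^ j < g → n < y) ∧ (n < y → n / b ^ j < g ∨ n / b ^ j = g) := by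
      intro n hn
      have hn' := (mem_S.1 hn).1
      have hnj : n / b ^ j < b ^ m := by
        rw [Nat.div_lt_iff_lt_mul hbj, ← pow_add]
        have : m + j = k := by omega
        rw [this]
        exact hn'
      constructor
      · intro h4
        have h5 : n / b ^ j < y / b ^ j := lt_of_lt_of_le h4 (by rw [hg]; exact min_le_left _ _)
        exact Nat.lt_of_div_lt_div h5
      · intro h4
        have h5 : n / b ^ j ≤ y / b ^ j := Nat.div_le_div_right h4.le
        have h6 : n / b ^ j ≤ g := by rw [hg]; exact le_min h5 hnj.le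
        omega
    have hd1 : ‖SU b k D (G l) (ev h) F c y q a -
        ∑ n ∈ S b D k, (if n / b ^ j < g ∧ n % q = a then G l n else 0) * ev h (F.eval (n : ℤ) + (c : ℤ))‖ ≤ s / 2 ^ m := by
      unfold Pool.Agent.U108.LV.SU
      rw [sum_filter, ← sum_sub_distrib]
      refine (norm_sum_le _ _).trans ?_
      calc ∑ n ∈ S b D k, ‖(if n < y ∧ n % q = a then G l n * ev h (F.eval (n : ℤ) + (c : ℤ)) else 0) -
            (if n / b ^ j < g ∧ n % q = a then G l n else 0) * ev h (F.eval (n : ℤ) + (c : ℤ))‖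
          ≤ ∑ n ∈ S b D k, if n / b ^ j = g then (1 : ℝ) else 0 := by
            refine sum_le_sum fun n hn => ?_
            have h4 : ‖G l n * ev h (F.eval (n : ℤ) + (c : ℤ))‖ ≤ 1 := by
              rw [norm_mul]
              exact mul_le_one₀ (hG l n) (norm_nonneg _) (ev_norm h hh _)
            obtain ⟨h6, h7⟩ := hmem n hn
            by_cases hqa : n % q = a
            · by_cases h8 : n / b ^ j < g
              · rw [if_pos ⟨h6 h8, hqa⟩, if_pos ⟨h8, hqa⟩, sub_self, norm_zero]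
                split_ifs <;> norm_num
              · have e0 : (if n / b ^ j < g ∧ n % q = a then G l n else 0) = 0 := if_neg (fun h => h8 h.1)
                rw [e0, zero_mul, sub_zero]
                by_cases h9 : n < y
                · rw [if_pos ⟨h9, hqa⟩, if_pos ((h7 h9).resolve_left h8)]
                  exact h4
                · rw [if_neg (fun h => h9 h.1), norm_zero]
                  split_ifs <;> norm_num
            · rw [if_neg (fun h => hqa h.2), if_neg (fun h => hqa h.2), zero_mul, sub_zero, norm_zero]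
              split_ifs <;> norm_num
        _ = (((S b D k).filter (fun n => n / b ^ j = g)).card : ℝ) := by
            rw [← sum_filter, sum_const, nsmul_eq_mul, mul_one]
        _ ≤ _ := hblock g
    have h5 : s / 2 ^ m ≤ ε / 2 * s := by
      rw [div_le_iff₀ (by positivity)]
      have h6 : 2 ≤ 2 ^ m * ε := (div_le_iff₀ hε).1 hm
      nlinarith
    have h6 : δ * s ≤ ε / 2 * s := by
      apply mul_le_mul_of_nonneg_right _ hs1.le
      rw [hδ]
      exact div_le_div_of_nonneg_left hε.le (by norm_num) hM2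
    have e1 : SU b k D (G l) (ev h) F c y q a = (SU b k D (G l) (ev h) F c y q a -
        ∑ n ∈ S b D k, (if n / b ^ j < g ∧ n % q = a then G l n else 0) * ev h (F.eval (n : ℤ) + (c : ℤ))) +
        ∑ n ∈ S b D k, (if n / b ^ j < g ∧ n % q = a then G l n else 0) * ev h (F.eval (n : ℤ) + (c : ℤ)) := by ring
    rw [e1]
    refine (norm_add_le _ _).trans ((add_le_add (hd1.trans h5) (hg2.trans h6)).trans (le_of_eq ?_))
    ring

end Pool.Agent.U108.SW
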