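import Pool.Agent.U108.SW.C
import Pool.Agent.TH893.CL.Twist

set_option autoImplicit false

/-! Products of the values of the Liouville function over blocks of consecutive integers, for almost all end points of the blocks
in sparse sets in bounded ranges. -/

namespace Pool.Agent.U108.SW
open Finset
open Pool.Agent.H373R2.T7 (exI liR)
open Pool.Agent.U108.DP (Bo val)
open Pool.Agent.TH893.CL (Pk twist_le)

/-- The Liouville function along a progression. -/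
noncomputable def lr (a c n : ℕ) : ℝ := (-1 : ℝ) ^ ArithmeticFunction.cardFactors (a * n + c)

/-- The product over blocks. -/
noncomputable def blk (a c : ℕ) {r : ℕ} (h e : Fin r → ℕ) (n : ℕ) : ℝ := ∏ i, ∏ j ∈ Ico (h i) (e i), lr a c (n + j)

lemma lr_pm (a c n : ℕ) : lr a c n = 1 ∨ lr a c n = -1 := neg_one_pow_eq_or ℝ _

lemma lr_sq (a c n : ℕ) : lr a c n * lr a c n = 1 := by
  rcases lr_pm a c n with h | h <;> rw [h] <;> norm_num

lemma prod_pm {ι : Type} (s : Finset ι) (f : ι → ℝ) (hf : ∀ i ∈ s, f i = 1 ∨ f i = -1) : ∏ i ∈ s, f i = 1 ∨ ∏ i ∈ s, f i = -1 := by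
  classical
  induction s using Finset.induction_on with
  | empty => left; simp
  | insert i s hi ih =>
    rw [prod_insert hi]
    have h1 := ih (fun j hj => hf j (mem_insert_of_mem hj))
    rcases hf i (mem_insert_self _ _) with h | h <;> rcases h1 with h2 | h2 <;> rw [h, h2] <;> norm_num

lemma blk_pm (a c : ℕ) {r : ℕ} (h e : Fin r → ℕ) (n : ℕ) : blk a c h e n = 1 ∨ blk a c h e n = -1 :=
  prod_pm _ _ fun _ _ => prod_pm _ _ fun _ _ => lr_pm _ _ _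

lemma blk_one (a c h e n : ℕ) (hhe : h ≤ e) :
    (∏ j ∈ Ico h e, lr a c (n + j)) * (∏ j ∈ Ico h e, lr a c (n + 1 + j)) = lr a c (n + h) * lr a c (n + e) := by
  induction e, hhe using Nat.le_induction with
  | base => rw [Ico_self, prod_empty, prod_empty, lr_sq, one_mul]
  | succ e he ih =>
    rw [Finset.prod_Ico_succ_top he, Finset.prod_Ico_succ_top he]
    have h1 := lr_sq a c (n + e)
    calc (∏ j ∈ Ico h e, lr a c (n + j)) * lr a c (n + e) * ((∏ j ∈ Ico h e, lr a c (n + 1 + j)) * lr a c (n + 1 + e))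
        = ((∏ j ∈ Ico h e, lr a c (n + j)) * (∏ j ∈ Ico h e, lr a c (n + 1 + j))) * lr a c (n + e) * lr a c (n + 1 + e) := by ring
      _ = lr a c (n + h) * (lr a c (n + e) * lr a c (n + e)) * lr a c (n + 1 + e) := by rw [ih]; ring
      _ = _ := by rw [h1, mul_one, show n + 1 + e = n + (e + 1) by ring]

lemma blk_step (a c : ℕ) {r : ℕ} (h e : Fin r → ℕ) (hhe : ∀ i, h i ≤ e i) (n : ℕ) :
    blk a c h e n * blk a c h e (n + 1) = (∏ i, lr a c (n + h i)) * ∏ i, lr a c (n + e i) := by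
  unfold blk
  rw [← prod_mul_distrib, ← prod_mul_distrib]
  exact prod_congr rfl fun i _ => blk_one a c (h i) (e i) n (hhe i)

lemma sum_Ioc_sub' {E : Type*} [AddCommGroup E] (f : ℕ → E) {Y X : ℕ} (h : Y ≤ X) :
    ∑ n ∈ Ioc Y X, f n = ∑ n ∈ Icc 1 X, f n - ∑ n ∈ Icc 1 Y, f n := by
  have h1 : ∀ Z : ℕ, Icc 1 Z = Ioc 0 Z := by intro Z; ext n; simp only [mem_Icc, mem_Ioc]; omega
  rw [h1, h1, ← sum_Ioc_consecutive f (Nat.zero_le Y) h]
  abel

lemma exI_liR' {m : ℤ} {k : ℕ} (hk : 1 ≤ k) (h : m = k) :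
    exI liR m = (((-1 : ℝ) ^ ArithmeticFunction.cardFactors k : ℝ) : ℂ) := by
  subst h
  unfold exI liR
  rw [if_pos (by exact_mod_cast hk)]
  simp

/-- the four real weights of a complex one -/
noncomputable def w4 (ξ : ℕ → ℂ) (j : Fin 4) (n : ℕ) : ℝ :=
  (if j.1 < 2 then (ξ n).re else (ξ n).im) * (if j.1 % 2 = 0 then (ξ (n + 1)).re else (ξ (n + 1)).im)

lemma w4_le {ξ : ℕ → ℂ} (hξ : ∀ n, ‖ξ n‖ ≤ 1) (j : Fin 4) (n : ℕ) : |w4 ξ j n| ≤ 1 := by
  have hre : ∀ n, |(ξ n).re| ≤ 1 := fun n => (Complex.abs_re_le_norm _).trans (hξ n)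
  have him : ∀ n, |(ξ n).im| ≤ 1 := fun n => (Complex.abs_im_le_norm _).trans (hξ n)
  unfold w4
  rw [abs_mul]
  apply mul_le_one₀ _ (abs_nonneg _)
  · split_ifs
    · exact hre _
    · exact him _
  · split_ifs
    · exact hre _
    · exact him _

/-- half of the trivial bound for the products over blocks -/
def HalfB (ε : ℝ) (B N : ℕ) {r L : ℕ} (ξ : Fin L → ℕ → ℂ) (h : Fin L → Fin r → ℕ) (e : Fin r → ℕ) : Prop :=
  ∀ l, (∀ i, h l i ≤ e i) → ∀ a c : ℕ, 1 ≤ a → a ≤ B → c ≤ B → ∀ Y X : ℕ, Y ≤ X → X ≤ N →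
    ‖∑ n ∈ Ioc Y X, ξ l n * (blk a c (h l) e n : ℂ)‖ ≤ ((X : ℝ) - Y) / 2 + ε * N

/-- from the correlations with the right end points -/
lemma half_of {ε : ℝ} {N : ℕ} (hN : 2 ≤ ε * N) {r : ℕ} (ξ : ℕ → ℂ) (hξ : ∀ n, ‖ξ n‖ ≤ 1) (h e : Fin r → ℕ)
    (hhe : ∀ i, h i ≤ e i) (a c : ℕ)
    (hc : ∀ j : Fin 4, ∀ Z : ℕ, Z ≤ N →
      ‖∑ n ∈ Icc 1 Z, ((w4 ξ j n * ∏ i, lr a c (n + h i) : ℝ) : ℂ) * ((∏ i, lr a c (n + e i) : ℝ) : ℂ)‖ ≤ ε / 8 * N)
    (Y X : ℕ) (hYX : Y ≤ X) (hX : X ≤ N) :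
    ‖∑ n ∈ Ioc Y X, ξ n * (blk a c h e n : ℂ)‖ ≤ ((X : ℝ) - Y) / 2 + ε * N := by
  have hcor : ∀ j : Fin 4, |∑ n ∈ Ioc Y X, (w4 ξ j n * blk a c h e n) * blk a c h e (n + 1)| ≤ 2 * (ε / 8 * N) := by
    intro j
    have e0 : ∀ n, (w4 ξ j n * blk a c h e n) * blk a c h e (n + 1) =
        (w4 ξ j n * ∏ i, lr a c (n + h i)) * ∏ i, lr a c (n + e i) := by
      intro n
      rw [mul_assoc, blk_step a c h e hhe n]
      ring
    rw [sum_congr rfl fun n _ => e0 n]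
    have e2 := sum_Ioc_sub' (fun n => ((w4 ξ j n * ∏ i, lr a c (n + h i) : ℝ) : ℂ) * ((∏ i, lr a c (n + e i) : ℝ) : ℂ)) hYX
    have e3 : ‖∑ n ∈ Ioc Y X, ((w4 ξ j n * ∏ i, lr a c (n + h i) : ℝ) : ℂ) * ((∏ i, lr a c (n + e i) : ℝ) : ℂ)‖ ≤
        2 * (ε / 8 * N) := by
      rw [e2]
      refine (norm_sub_le _ _).trans ?_
      have := hc j X hX
      have := hc j Y (hYX.trans hX)
      linarith
    have e4 : ∑ n ∈ Ioc Y X, ((w4 ξ j n * ∏ i, lr a c (n + h i) : ℝ) : ℂ) * ((∏ i, lr a c (n + e i) : ℝ) : ℂ) =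
        ((∑ n ∈ Ioc Y X, (w4 ξ j n * ∏ i, lr a c (n + h i)) * ∏ i, lr a c (n + e i) : ℝ) : ℂ) := by
      push_cast
      rfl
    rwa [e4, Complex.norm_real, Real.norm_eq_abs] at e3
  have hP : ∀ n, Pk (blk a c h e) 1 n = blk a c h e n := by
    intro n
    unfold Pk
    rw [prod_range_one, add_zero]
  have h1 := twist_le (l := blk a c h e) (blk_pm a c h e) 1 hξ hYX (M := 2 * (ε / 8 * N))
    (by simpa [w4] using hcor 0) (by simpa [w4] using hcor 1) (by simpa [w4] using hcor 2) (by simpa [w4] using hcor 3)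
  simp only [hP] at h1
  refine h1.trans ?_
  linarith

lemma fam_C {b d B k : ℕ} {J : Type} [Fintype J] [DecidableEq J] {D : J → ℕ → Finset ℕ} {F : MvPolynomial J ℤ} {A : Finset (J → ℕ)}
    (hF : Fam b d B k D F A) (a : ℕ) (ha : 1 ≤ a) (haB : a ≤ B) : Fam b d (B * B + B) k D (MvPolynomial.C (a : ℤ) * F) A := by
  have ha0 : (a : ℤ) ≠ 0 := by exact_mod_cast (by omega : a ≠ 0)
  have haz : (a : ℤ) ≤ B := by exact_mod_cast haB
  have ha1 : (0 : ℤ) ≤ a := Int.natCast_nonneg a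
  have hB0 : (0 : ℤ) ≤ B := Int.natCast_nonneg B
  refine ⟨hF.digits, ?_, ?_, ⟨hF.part.1, ?_⟩, ?_⟩
  · refine (MvPolynomial.totalDegree_mul _ _).trans ?_
    rw [MvPolynomial.totalDegree_C, zero_add]
    exact hF.degree
  · obtain ⟨m, hm1, hm2, hm3⟩ := hF.top
    refine ⟨m, hm1, ?_, ?_⟩
    · rw [MvPolynomial.coeff_C_mul]
      exact mul_ne_zero ha0 hm2
    · rw [MvPolynomial.coeff_C_mul, abs_mul, abs_of_nonneg ha1]
      have h1 : (a : ℤ) * |F.coeff m| ≤ B * B := mul_le_mul haz hm3 (abs_nonneg _) hB0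
      push_cast
      linarith
  · refine hF.part.2.trans (Nat.mul_le_mul_right _ ?_)
    exact Nat.le_add_left _ _
  · intro n hn
    have h1 := hF.values n hn
    unfold Pool.Agent.U108.DP.val at h1 ⊢
    rw [map_mul, MvPolynomial.eval_C, abs_mul, abs_of_nonneg ha1]
    have h2 : (0 : ℤ) ≤ (b : ℤ) ^ (d * k) := by positivity
    have h3 : (a : ℤ) * |MvPolynomial.eval (fun j => (n j : ℤ)) F| ≤ B * (B * (b : ℤ) ^ (d * k)) :=
      mul_le_mul haz h1 (abs_nonneg _) hB0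
    push_cast
    nlinarith [mul_nonneg hB0 h2]

open Classical in
theorem lengths1 (r L B : ℕ) (hr : 1 ≤ r) (b d : Fin r → ℕ) (hb : ∀ i, 2 ≤ b i) (hd : ∀ i, 2 ≤ d i) (ε : ℝ) (hε : 0 < ε) :
    ∃ k₀ N₀ : ℕ, ∀ N : ℕ, N₀ ≤ N → ∀ K : Fin r → ℕ, (∀ i, k₀ ≤ K i ∧ b i ^ (d i * K i) ≤ N) →
      ∀ (J : Fin r → Type) [∀ i, Fintype (J i)] [∀ i, DecidableEq (J i)] (D : ∀ i, J i → ℕ → Finset ℕ)
      (F : ∀ i, MvPolynomial (J i) ℤ) (A : ∀ i, Finset (J i → ℕ)), (∀ i, Fam (b i) (d i) B (K i) (D i) (F i) (A i)) →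
      ∀ ξ : Fin L → ℕ → ℂ, (∀ l n, ‖ξ l n‖ ≤ 1) → ∀ h : Fin L → Fin r → ℕ,
      ∃ E ⊆ Fintype.piFinset A, (E.card : ℝ) ≤ ε * ∏ i, ((A i).card : ℝ) ∧
      ∀ u ∈ Fintype.piFinset A, u ∉ E → ∀ e : Fin r → ℕ, (∀ i, |(e i : ℤ) - val (F i) (u i)| ≤ B) → HalfB ε B N ξ h e := by
  obtain ⟨η, hη⟩ : ∃ η : ℝ, η = ε / (8 * (B + 1)) := ⟨_, rfl⟩
  have hB1 : (0 : ℝ) < 8 * ((B : ℝ) + 1) := by positivity
  have hη0 : 0 < η := by rw [hη]; positivity
  have hη8 : η ≤ ε / 8 := by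
    rw [hη]
    apply div_le_div_of_nonneg_left hε.le (by norm_num)
    have : (0 : ℝ) ≤ B := Nat.cast_nonneg _
    linarith
  have hηB : (B : ℝ) * η ≤ ε := by
    rw [hη, mul_div_assoc', div_le_iff₀ hB1]
    have : (0 : ℝ) ≤ B := Nat.cast_nonneg _
    nlinarith
  let ι := (Fin L × Fin 4) × Fin (B + 1)
  obtain ⟨k₀, N₀, h1⟩ := fewg liR Pool.Agent.H373R2.T7.liR_norm Pool.Agent.TH823.MRS.liR_E r (Fintype.card ι) (B * B + B)
    b d hb hd η hη0
  refine ⟨k₀, N₀ + ⌈2 / ε⌉₊, fun N hN K hK J _ _ D F A hA ξ hξ h => ?_⟩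
  have hN2 : 2 ≤ ε * N := by
    have h2 : 2 / ε ≤ N := (Nat.le_ceil _).trans (by exact_mod_cast (by omega : ⌈2 / ε⌉₊ ≤ N))
    rw [div_le_iff₀ hε] at h2
    linarith
  have hN0 : (0 : ℝ) ≤ N := Nat.cast_nonneg _
  have key : ∀ a ∈ Icc 1 B, ∃ E ⊆ Fintype.piFinset A, (E.card : ℝ) ≤ η * ∏ i, ((A i).card : ℝ) ∧
      ∀ u ∈ Fintype.piFinset A, u ∉ E → ∀ e : Fin r → ℕ, (∀ i, |(e i : ℤ) - val (F i) (u i)| ≤ B) →
        ∀ l, (∀ i, h l i ≤ e i) → ∀ c : ℕ, c ≤ B → ∀ Y X : ℕ, Y ≤ X → X ≤ N →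
        ‖∑ n ∈ Ioc Y X, ξ l n * (blk a c (h l) e n : ℂ)‖ ≤ ((X : ℝ) - Y) / 2 + ε * N := by
    intro a ha
    rw [mem_Icc] at ha
    obtain ⟨E, hE1, hE2, hE3⟩ := h1 N (by omega) K hK J D (fun i => MvPolynomial.C (a : ℤ) * F i) A
      (fun i => fam_C (hA i) a ha.1 ha.2)
      (fun l' n => ((w4 (ξ ((Fintype.equivFin ι).symm l').1.1) ((Fintype.equivFin ι).symm l').1.2 n *
        ∏ i, lr a ((Fintype.equivFin ι).symm l').2 (n + h ((Fintype.equivFin ι).symm l').1.1 i) : ℝ) : ℂ))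
      (fun l' n => by
        rw [Complex.norm_real, Real.norm_eq_abs, abs_mul]
        apply mul_le_one₀ (w4_le (hξ _) _ _) (abs_nonneg _)
        rcases prod_pm univ (fun i => lr a ((Fintype.equivFin ι).symm l').2 (n + h ((Fintype.equivFin ι).symm l').1.1 i))
          (fun _ _ => lr_pm _ _ _) with h2 | h2 <;> rw [h2] <;> norm_num)
    refine ⟨E, hE1, hE2, fun u hu huE e he l hhe c hc Y X hYX hX => ?_⟩
    apply half_of hN2 (ξ l) (hξ l) (h l) e hhe a c _ Y X hYX hX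
    intro j Z hZ
    have h2 := hE3 u hu huE (fun _ => none) ⟨⟨0, hr⟩, rfl⟩ (fun i => (a : ℤ) * e i + c - a * val (F i) (u i)) (fun i => by
        have e1 : (a : ℤ) * e i + c - a * val (F i) (u i) = a * ((e i : ℤ) - val (F i) (u i)) + c := by ring
        rw [e1]
        refine (abs_add_le _ _).trans ?_
        rw [abs_mul, abs_of_nonneg (Int.natCast_nonneg a), abs_of_nonneg (Int.natCast_nonneg c)]
        have e2 : (a : ℤ) * |(e i : ℤ) - val (F i) (u i)| ≤ B * B :=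
          mul_le_mul (by exact_mod_cast ha.2) (he i) (abs_nonneg _) (Int.natCast_nonneg _)
        have e3 : (c : ℤ) ≤ B := by exact_mod_cast hc
        push_cast
        linarith) (fun _ => a) (fun _ => ⟨ha.1, ha.2.trans (Nat.le_add_left _ _)⟩)
      (Fintype.equivFin ι ((l, j), ⟨c, by omega⟩)) Z hZ
    simp only [Equiv.symm_apply_apply] at h2
    refine le_trans (le_of_eq ?_) (h2.trans ?_)
    · congr 1
      refine sum_congr rfl fun n hn => ?_
      rw [mem_Icc] at hn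
      congr 1
      unfold prg
      rw [Complex.ofReal_prod]
      refine prod_congr rfl fun i _ => ?_
      have e1 : (((fun _ => a : Fin r → ℕ) i : ℕ) : ℤ) * (n : ℤ) + ((a : ℤ) * e i + c - a * val (F i) (u i)) +
          val (MvPolynomial.C (a : ℤ) * F i) (u i) = ((a * (n + e i) + c : ℕ) : ℤ) := by
        unfold Pool.Agent.U108.DP.val
        rw [map_mul, MvPolynomial.eval_C]
        push_cast
        ring
      show _ = exI liR _
      rw [exI_liR' (k := a * (n + e i) + c) (by nlinarith [hn.1, ha.1]) e1]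
      rfl
    · exact mul_le_mul_of_nonneg_right hη8 hN0
  choose! E hE1 hE2 hE3 using key
  refine ⟨(Icc 1 B).biUnion E, ?_, ?_, ?_⟩
  · intro u hu
    rw [mem_biUnion] at hu
    obtain ⟨a, ha, hu⟩ := hu
    exact hE1 a ha hu
  · have hPn : 0 ≤ ∏ i, ((A i).card : ℝ) := prod_nonneg fun _ _ => Nat.cast_nonneg _
    have h2 : ((((Icc 1 B).biUnion E).card : ℕ) : ℝ) ≤ ∑ a ∈ Icc 1 B, ((E a).card : ℝ) := by
      exact_mod_cast card_biUnion_le
    refine h2.trans ((sum_le_sum fun a ha => hE2 a ha).trans ?_)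
    rw [sum_const, Nat.card_Icc, nsmul_eq_mul, Nat.add_sub_cancel, ← mul_assoc]
    exact mul_le_mul_of_nonneg_right hηB hPn
  · intro u hu huE e he l hhe a c ha1 ha2 hc Y X hYX hX
    have ha : a ∈ Icc 1 B := mem_Icc.2 ⟨ha1, ha2⟩
    refine hE3 a ha u hu (fun h2 => huE ?_) e he l hhe c hc Y X hYX hX
    rw [mem_biUnion]
    exact ⟨a, ha, h2⟩

open Classical in
/-- from every large `N` to fixed members: common large `R` at which all members outside a small set are good for most `N ≤ R` -/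
lemma freq_of {U : Type} (P : Finset U) (good : U → ℕ → Prop) (ε : ℝ) (hε : 0 < ε) (N₁ : ℕ)
    (hbad : ∀ N : ℕ, N₁ ≤ N → ((P.filter (fun u => ¬ good u N)).card : ℝ) ≤ ε ^ 2 / 2 * P.card) :
    ∃ E ⊆ P, (E.card : ℝ) ≤ ε * P.card ∧ ∃ᶠ R : ℕ in Filter.atTop, ∀ u ∈ P, u ∉ E →
      (1 - ε) * R ≤ ((Icc 1 R).filter (good u)).card := by
  have hP0 : (0 : ℝ) ≤ P.card := Nat.cast_nonneg _
  obtain ⟨S, hS⟩ : ∃ S : ℕ → Finset U, S = fun R => P.filter (fun u => (((Icc 1 R).filter (good u)).card : ℝ) < (1 - ε) * R) := ⟨_, rfl⟩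
  have hcard : ∀ R : ℕ, 1 ≤ R → (N₁ : ℝ) ≤ ε ^ 2 / 2 * R → ((S R).card : ℝ) ≤ ε * P.card := by
    intro R hR1 hR2
    have hR : (0 : ℝ) < R := by exact_mod_cast hR1
    have h1 : ∀ u ∈ S R, ε * R ≤ ((Icc 1 R).filter (fun N => ¬ good u N)).card := by
      intro u hu
      rw [hS, mem_filter] at hu
      have h2 := card_filter_add_card_filter_not (s := Icc 1 R) (good u)
      rw [Nat.card_Icc, Nat.add_sub_cancel] at h2
      have h3 : (((Icc 1 R).filter (good u)).card : ℝ) + ((Icc 1 R).filter (fun N => ¬ good u N)).card = R := by exact_mod_cast h2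
      linarith [hu.2]
    have h2 : (S R).card * (ε * R) ≤ ∑ u ∈ S R, (((Icc 1 R).filter (fun N => ¬ good u N)).card : ℝ) := by
      rw [← nsmul_eq_mul, ← sum_const]
      exact sum_le_sum h1
    have h3 : ∑ u ∈ S R, (((Icc 1 R).filter (fun N => ¬ good u N)).card : ℝ) ≤
        ∑ u ∈ P, (((Icc 1 R).filter (fun N => ¬ good u N)).card : ℝ) := by
      apply sum_le_sum_of_subset_of_nonneg
      · rw [hS]; exact filter_subset _ _
      · intro _ _ _; positivity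
    have h4 : ∑ u ∈ P, (((Icc 1 R).filter (fun N => ¬ good u N)).card : ℝ) =
        ∑ N ∈ Icc 1 R, ((P.filter (fun u => ¬ good u N)).card : ℝ) := by
      simp only [card_filter, Nat.cast_sum]
      exact sum_comm
    have h5 : ∑ N ∈ Icc 1 R, ((P.filter (fun u => ¬ good u N)).card : ℝ) ≤ N₁ * P.card + R * (ε ^ 2 / 2 * P.card) := by
      have h6 : ∀ N ∈ Icc 1 R, ((P.filter (fun u => ¬ good u N)).card : ℝ) ≤
          (if N < N₁ then (P.card : ℝ) else 0) + ε ^ 2 / 2 * P.card := by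
        intro N _
        split_ifs with hN
        · have h7 : ((P.filter (fun u => ¬ good u N)).card : ℝ) ≤ P.card := by exact_mod_cast card_filter_le _ _
          have : 0 ≤ ε ^ 2 / 2 * P.card := by positivity
          linarith
        · rw [zero_add]
          exact hbad N (by omega)
      refine (sum_le_sum h6).trans ?_
      rw [sum_add_distrib, sum_const, Nat.card_Icc, Nat.add_sub_cancel, nsmul_eq_mul, ← sum_filter, sum_const, nsmul_eq_mul]
      have h8 : (((Icc 1 R).filter (fun N => N < N₁)).card : ℝ) ≤ N₁ := by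
        have : (Icc 1 R).filter (fun N => N < N₁) ⊆ range N₁ := by
          intro N hN
          rw [mem_filter] at hN
          exact mem_range.2 hN.2
        exact_mod_cast (card_le_card this).trans (le_of_eq (card_range _))
      have h9 := mul_le_mul_of_nonneg_right h8 hP0
      linarith
    have h6 : (S R).card * (ε * R) ≤ (ε * P.card) * (ε * R) := by
      have h7 : (N₁ : ℝ) * P.card ≤ ε ^ 2 / 2 * R * P.card := mul_le_mul_of_nonneg_right hR2 hP0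
      calc (S R).card * (ε * R) ≤ N₁ * P.card + R * (ε ^ 2 / 2 * P.card) := h2.trans (h3.trans (h4.le.trans h5))
        _ ≤ ε ^ 2 / 2 * R * P.card + R * (ε ^ 2 / 2 * P.card) := by linarith
        _ = (ε * P.card) * (ε * R) := by ring
    exact le_of_mul_le_mul_right h6 (by positivity)
  by_contra hcon
  push Not at hcon
  have h1 : ∀ E ∈ P.powerset, ∀ᶠ R : ℕ in Filter.atTop, (E.card : ℝ) ≤ ε * P.card →
      ¬ ∀ u ∈ P, u ∉ E → (1 - ε) * R ≤ ((Icc 1 R).filter (good u)).card := by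
    intro E hE
    by_cases hc : (E.card : ℝ) ≤ ε * P.card
    · have h2 := hcon E (mem_powerset.1 hE) hc
      filter_upwards [h2] with R hR _ hall
      obtain ⟨u, hu1, hu2, hu3⟩ := hR
      exact absurd (hall u hu1 hu2) (not_le.2 hu3)
    · exact Filter.Eventually.of_forall fun R h3 => absurd h3 hc
  rw [← Filter.eventually_all_finset] at h1
  have h2 : ∀ᶠ R : ℕ in Filter.atTop, (N₁ : ℝ) ≤ ε ^ 2 / 2 * R := by
    filter_upwards [Filter.eventually_ge_atTop ⌈(N₁ : ℝ) / (ε ^ 2 / 2)⌉₊] with R hR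
    have h3 : (N₁ : ℝ) / (ε ^ 2 / 2) ≤ R := (Nat.le_ceil _).trans (by exact_mod_cast hR)
    rw [div_le_iff₀ (by positivity)] at h3
    linarith
  obtain ⟨R, hR1, hR2, hR3⟩ := (h1.and (h2.and (Filter.eventually_ge_atTop 1))).exists
  refine hR1 (S R) ?_ (hcard R hR3 hR2) ?_
  · rw [mem_powerset, hS]; exact filter_subset _ _
  · intro u hu huS
    rw [hS, mem_filter, not_and, not_lt] at huS
    exact huS hu

lemma HalfB_mono {ε ε' : ℝ} (h1 : ε' ≤ ε) {B N r L : ℕ} {ξ : Fin L → ℕ → ℂ} {h : Fin L → Fin r → ℕ} {e : Fin r → ℕ}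
    (h2 : HalfB ε' B N ξ h e) : HalfB ε B N ξ h e := by
  intro l hl a c ha1 ha2 hc Y X hYX hX
  refine (h2 l hl a c ha1 ha2 hc Y X hYX hX).trans ?_
  have := mul_le_mul_of_nonneg_right h1 (Nat.cast_nonneg (α := ℝ) N)
  linarith

open Classical in
theorem lengths2 (r L B : ℕ) (hr : 1 ≤ r) (b d : Fin r → ℕ) (hb : ∀ i, 2 ≤ b i) (hd : ∀ i, 2 ≤ d i) (ε : ℝ) (hε : 0 < ε) :
    ∃ k₀ : ℕ, ∀ K : Fin r → ℕ, (∀ i, k₀ ≤ K i) →
      ∀ (J : Fin r → Type) [∀ i, Fintype (J i)] [∀ i, DecidableEq (J i)] (D : ∀ i, J i → ℕ → Finset ℕ)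
      (F : ∀ i, MvPolynomial (J i) ℤ) (A : ∀ i, Finset (J i → ℕ)), (∀ i, Fam (b i) (d i) B (K i) (D i) (F i) (A i)) →
      ∀ ξ : Fin L → ℕ → ℂ, (∀ l n, ‖ξ l n‖ ≤ 1) → ∀ h : Fin L → Fin r → ℕ,
      ∃ E ⊆ Fintype.piFinset A, (E.card : ℝ) ≤ ε * ∏ i, ((A i).card : ℝ) ∧
      ∃ᶠ R : ℕ in Filter.atTop, ∀ u ∈ Fintype.piFinset A, u ∉ E →
        (1 - ε) * R ≤ ((Icc 1 R).filter (fun N => ∀ e : Fin r → ℕ, (∀ i, |(e i : ℤ) - val (F i) (u i)| ≤ B) →
          HalfB ε B N ξ h e)).card := by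
  obtain ⟨k₀, N₀, h1⟩ := lengths1 r L B hr b d hb hd (min ε (ε ^ 2 / 2)) (lt_min hε (by positivity))
  refine ⟨k₀, fun K hK J _ _ D F A hA ξ hξ h => ?_⟩
  obtain ⟨E, hE1, hE2, hE3⟩ := freq_of (Fintype.piFinset A) (fun u N => ∀ e : Fin r → ℕ,
    (∀ i, |(e i : ℤ) - val (F i) (u i)| ≤ B) → HalfB ε B N ξ h e) ε hε (N₀ + ∑ i, b i ^ (d i * K i)) (fun N hN => by
      have hbK : ∀ i, b i ^ (d i * K i) ≤ N := by
        intro i
        have h3 : b i ^ (d i * K i) ≤ ∑ i, b i ^ (d i * K i) :=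
          single_le_sum (f := fun i => b i ^ (d i * K i)) (fun _ _ => Nat.zero_le _) (mem_univ i)
        omega
      obtain ⟨E, hE1, hE2, hE3⟩ := h1 N (by omega) K (fun i => ⟨hK i, hbK i⟩) J D F A hA ξ hξ h
      have h2 : ((((Fintype.piFinset A).filter (fun u => ¬ ∀ e : Fin r → ℕ,
          (∀ i, |(e i : ℤ) - val (F i) (u i)| ≤ B) → HalfB ε B N ξ h e)).card : ℕ) : ℝ) ≤ E.card := by
        apply Nat.cast_le.2
        apply card_le_card
        intro u hu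
        rw [mem_filter] at hu
        by_contra huE
        exact hu.2 fun e he => HalfB_mono (min_le_left _ _) (hE3 u hu.1 huE e he)
      refine h2.trans (hE2.trans ?_)
      rw [Fintype.card_piFinset]
      push_cast
      exact mul_le_mul_of_nonneg_right (min_le_right _ _) (prod_nonneg fun _ _ => Nat.cast_nonneg _))
  refine ⟨E, hE1, ?_, hE3⟩
  rw [Fintype.card_piFinset] at hE2
  push_cast at hE2
  exact hE2

end Pool.Agent.U108.SW
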